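import Mathlib
import Pool.Agent.H2.AG2

namespace Pool.Agent.Results.MP_68e822_an.Ball

open Metric Pool.Agent.H2.AG1 Pool.Agent.H2.AG2

/-- `b` is admissible in the definition of the Assouad dimension of `F`. -/
def AssouadAdm (F : Set E2) (b : ℝ) : Prop :=
  ∃ C > 0, ∀ r R : ℝ, 0 < r → r < R → ∀ x ∈ F, PackLE r (ball x R ∩ F) (C * (R / r) ^ b)

theorem result : ∃ f₀ : ℝ → ℝ, (∃ L, Hol f₀ L) ∧ ∃ ε > 0, ∃ b < 2,
    ∀ f : ℝ → ℝ, Hol (f - f₀) ε → AssouadAdm (graph f) b :=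
  ⟨T, ⟨4, T_Hol⟩, 1 / 4, by norm_num, β, β_lt, fun _ hf =>
    ⟨1280000 ^ β, by positivity, fun r R hr hR x _ => main hf r R hr hR x⟩⟩

end Pool.Agent.Results.MP_68e822_an.Ball
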